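import Pool.Agent.Helper86.SG.Defs

/-! MP_66bcf1_co, package CLS: the free coordinate of a nonexceptional support which contains a
clashing `(2d+2)`-set avoids the clashing members. -/

set_option autoImplicit false

open Finset

namespace Pool.Agent.Helper41.SG

open SJ (supp IsV dot fib)
open _root_.SG

theorem mk_mem {n k d : ℕ} {F : Finset (Fin n → ℤ)} {S : Finset (Fin n)} (hS : #S = k)
    {f : Fin n} {c : Fin n → ℤ} (hStr : Str k d F S f c) (p : Fin n → ℤ)
    (hp : ∀ i ∈ S, p i = 1 ∨ p i = -1)
    (hd : #((S.erase f).filter (fun i => p i ≠ c i)) ≤ d) :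
    ∃ x ∈ F, supp x = S ∧ ∀ i ∈ S, x i = p i := by
  classical
  set x : Fin n → ℤ := fun i => if i ∈ S then p i else 0 with hx
  have h1 : ∀ i ∈ S, x i = p i := fun i hi => if_pos hi
  have h2 : supp x = S := by
    ext i
    simp only [supp, mem_filter, mem_univ, true_and]
    by_cases hi : i ∈ S
    · rw [h1 i hi]
      refine ⟨fun _ => hi, fun _ => ?_⟩
      rcases hp i hi with h | h <;> rw [h] <;> norm_num
    · have : x i = 0 := if_neg hi
      rw [this]
      exact ⟨fun h => absurd rfl h, fun h => absurd h hi⟩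
  have h3 : IsV n k x := by
    refine ⟨fun i => ?_, by rw [h2, hS]⟩
    by_cases hi : i ∈ S
    · rw [h1 i hi]
      rcases hp i hi with h | h
      · exact Or.inr (Or.inr h)
      · exact Or.inl h
    · exact Or.inr (Or.inl (if_neg hi))
  refine ⟨x, (hStr.2.2 x h3 h2).2 ?_, h2, h1⟩
  refine le_trans (card_le_card ?_) hd
  intro i hi
  rw [mem_filter] at hi ⊢
  rw [h1 i (mem_of_mem_erase hi.1)] at hi
  exact hi

theorem no_clash {n k d : ℕ} {F : Finset (Fin n → ℤ)} {S : Finset (Fin n)} (hS : #S = k)
    (hHH : S ∉ HH k d F) {x w : Fin n → ℤ} (hx : x ∈ F) (hxS : supp x = S) (hw : w ∈ F)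
    {B : Finset (Fin n)} (hB : #B = 2 * d + 2) (hBS : B ⊆ S) (h : ∀ i ∈ B, w i = - x i) :
    False := by
  classical
  apply hHH
  unfold HH
  rw [mem_filter, mem_powersetCard]
  exact ⟨⟨subset_univ _, hS⟩, x, hx, hxS, B, hB, by rw [hxS]; exact hBS, w, hw, h⟩

theorem cls : CLSStm := by
  classical
  intro n k d F hk hF A hA v hv hvA S hS hHH hAS f c hStr
  have hc := hStr.2.1
  have hfS := hStr.1
  -- signs of the members
  have hsg : ∀ u ∈ F, A ⊆ supp u → ∀ i ∈ A, u i = 1 ∨ u i = -1 := by
    intro u hu hAu i hi
    have h1 := hAu hi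
    simp only [supp, mem_filter, mem_univ, true_and] at h1
    rcases (hF u hu).1 i with h | h | h
    · exact Or.inr h
    · exact absurd h h1
    · exact Or.inl h
  -- a pattern with few disagreements
  have key : ∀ u ∈ F, Clash F u A → ∀ p : Fin n → ℤ,
      ((∀ i ∈ A, p i = u i) ∨ (∀ i ∈ A, p i = - u i)) →
      ¬ #((A.erase f).filter (fun i => p i ≠ c i)) ≤ d := by
    rintro u hu ⟨hAu, w, hw, hwu⟩ p hp hd
    have hu1 := hsg u hu hAu
    obtain ⟨x, hxF, hxS, hx⟩ := mk_mem hS hStr (fun i => if i ∈ A then p i else c i) (by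
      intro i hi
      by_cases hiA : i ∈ A
      · simp only [if_pos hiA]
        rcases hp with hp | hp
        · rw [hp i hiA]; exact hu1 i hiA
        · rw [hp i hiA]
          rcases hu1 i hiA with h | h <;> rw [h]
          · exact Or.inr rfl
          · exact Or.inl (neg_neg 1)
      · simp only [if_neg hiA]
        exact hc i) (by
      refine le_trans (card_le_card ?_) hd
      intro i hi
      rw [mem_filter, mem_erase] at hi ⊢
      by_cases hiA : i ∈ A
      · rw [if_pos hiA] at hi
        exact ⟨⟨hi.1.1, hiA⟩, hi.2⟩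
      · rw [if_neg hiA] at hi
        exact absurd rfl hi.2)
    rcases hp with hp | hp
    · refine no_clash hS hHH hxF hxS hw hA hAS fun i hi => ?_
      rw [hx i (hAS hi), if_pos hi, hp i hi, hwu i hi]
    · refine no_clash hS hHH hxF hxS hu hA hAS fun i hi => ?_
      rw [hx i (hAS hi), if_pos hi, hp i hi, neg_neg]
  -- the number of agreements and disagreements
  have hsum : ∀ u ∈ F, A ⊆ supp u → ∀ B : Finset (Fin n), B ⊆ A →
      #(B.filter (fun i => u i ≠ c i)) + #(B.filter (fun i => - u i ≠ c i)) = #B := by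
    intro u hu hAu B hB
    have h1 : B.filter (fun i => - u i ≠ c i) = B.filter (fun i => ¬ u i ≠ c i) := by
      apply filter_congr
      intro i hi
      rcases hsg u hu hAu i (hB hi) with h | h <;> rcases hc i with h' | h' <;> rw [h, h'] <;>
        norm_num
    rw [h1]
    exact card_filter_add_card_filter_not _
  have key2 : ∀ u ∈ F, Clash F u A →
      d < #((A.erase f).filter (fun i => u i ≠ c i)) ∧
        d < #((A.erase f).filter (fun i => - u i ≠ c i)) := by
    intro u hu hc
    have h1 := key u hu hc u (Or.inl fun _ _ => rfl)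
    have h2 := key u hu hc (fun i => - u i) (Or.inr fun _ _ => rfl)
    exact ⟨not_le.1 h1, not_le.1 h2⟩
  have hfA : f ∉ A := by
    intro hfA
    have h1 := key2 v hv hvA
    have h2 := hsum v hv hvA.1 (A.erase f) (erase_subset _ _)
    rw [card_erase_of_mem hfA, hA] at h2
    omega
  unfold DD
  rw [mem_filter]
  refine ⟨mem_univ _, hfA, fun u hu huA => ?_⟩
  by_contra hne
  have h1 := key2 u hu huA
  have h2 := hsum u hu huA.1 (A.erase f) (erase_subset _ _)
  rw [erase_eq_of_notMem hfA] at h1 h2
  rw [hA] at h2
  have h3 : #(A.filter (fun i => - u i ≠ c i)) = d + 1 := by omega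
  obtain ⟨y, hy⟩ : (A.filter (fun i => - u i ≠ c i)).Nonempty := by
    rw [← card_pos]; omega
  have hyA : y ∈ A := (mem_filter.1 hy).1
  have huf : u f = 1 ∨ u f = -1 := by
    rcases (hF u hu).1 f with h | h | h
    · exact Or.inr h
    · exact absurd h hne
    · exact Or.inl h
  have hyf : y ≠ f := fun h => hfA (h ▸ hyA)
  obtain ⟨x, hxF, hxS, hx⟩ := mk_mem hS hStr
      (fun i => if i ∈ insert f (A.erase y) then - u i else c i) (by
      intro i _
      by_cases hiA : i ∈ insert f (A.erase y)
      · simp only [if_pos hiA]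
        rcases mem_insert.1 hiA with h | h
        · rw [h]
          rcases huf with h' | h' <;> rw [h']
          · exact Or.inr rfl
          · exact Or.inl (neg_neg 1)
        · rcases hsg u hu huA.1 i (mem_of_mem_erase h) with h' | h' <;> rw [h']
          · exact Or.inr rfl
          · exact Or.inl (neg_neg 1)
      · simp only [if_neg hiA]
        exact hc i) (by
      have h4 : #((A.filter (fun i => - u i ≠ c i)).erase y) ≤ d := by
        rw [card_erase_of_mem hy, h3]
        exact le_rfl
      refine le_trans (card_le_card ?_) h4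
      intro i hi
      rw [mem_filter, mem_erase] at hi
      rw [mem_erase, mem_filter]
      by_cases hiA : i ∈ insert f (A.erase y)
      · rw [if_pos hiA] at hi
        rcases mem_insert.1 hiA with h | h
        · exact absurd h hi.1.1
        · rw [mem_erase] at h
          exact ⟨h.1, h.2, hi.2⟩
      · rw [if_neg hiA] at hi
        exact absurd rfl hi.2)
  have hB : #(insert f (A.erase y)) = 2 * d + 2 := by
    rw [card_insert_of_notMem (fun h => hfA (mem_of_mem_erase h)), card_erase_of_mem hyA, hA]
    omega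
  have hBS : insert f (A.erase y) ⊆ S := by
    intro i hi
    rcases mem_insert.1 hi with h | h
    · rw [h]; exact hfS
    · exact hAS (mem_of_mem_erase h)
  refine no_clash hS hHH hxF hxS hu hB hBS fun i hi => ?_
  rw [hx i (hBS hi), if_pos hi, neg_neg]

end Pool.Agent.Helper41.SG
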